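import Pool.Agent.N669.CQ.Stm

/-!
# Project CQ: strict monotonicity of the area (CQ/STR)
-/

set_option autoImplicit false

namespace Pool.Agent.N383.CQ.Str

open MeasureTheory Set
open Pool.Agent.N669.CQ

theorem t_STR : S_STR := by
  intro K L hK hL hLK hv
  refine Subset.antisymm ?_ hLK
  by_contra hne
  rw [not_subset] at hne
  obtain ⟨k, hk, hkL⟩ := hne
  have h1 : k ∈ closure (interior K) := by
    rw [hK.conv.closure_interior_eq_closure_of_nonempty_interior hK.int]
    exact subset_closure hk
  have h2 : (Lᶜ ∩ interior K).Nonempty :=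
    mem_closure_iff.1 h1 Lᶜ hL.isOpen_compl hkL
  have hUo : IsOpen (Lᶜ ∩ interior K) := hL.isOpen_compl.inter isOpen_interior
  have h3 : 0 < volume (Lᶜ ∩ interior K) := hUo.measure_pos volume h2
  have h4 : volume L + volume (Lᶜ ∩ interior K) ≤ volume K := by
    rw [← measure_union _ hUo.measurableSet]
    · exact measure_mono (union_subset hLK (inter_subset_right.trans interior_subset))
    · exact (disjoint_compl_right (a := L)).mono_right inter_subset_left
  have hKf : volume K ≠ ⊤ := hK.comp.measure_lt_top.ne
  have hLf : volume L ≠ ⊤ := ((measure_mono hLK).trans_lt hK.comp.measure_lt_top).ne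
  have h5 : volume L < volume K := lt_of_lt_of_le (ENNReal.lt_add_right hLf h3.ne') h4
  have h6 : (volume L).toReal < (volume K).toReal := (ENNReal.toReal_lt_toReal hLf hKf).2 h5
  exact absurd hv (not_le.2 h6)

end Pool.Agent.N383.CQ.Str
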